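import Mathlib
import Pool.Agent.Lib.helper21.RammData

/-! A nonzero solution of the coupled elliptic Dirichlet system on the unit disc, with polynomial data. -/

set_option autoImplicit false

namespace Pool.Agent.Results.MP_f60174_an.Counter

open MeasureTheory Set Metric Pool.Agent.Lib.Helper21.RammData
open scoped ContDiff

noncomputable section

/-- the plane -/
abbrev Pl : Type := EuclideanSpace ℝ (Fin 2)

/-- the derivative `∂_i w` -/
def D (i : Fin 2) (w : Pl → ℝ) (x : Pl) : ℝ := fderiv ℝ w x (EuclideanSpace.single i 1)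

/-- the operator `w ↦ -∑ ∂_i (A_ij ∂_j w) + c w` -/
def op (A : Fin 2 → Fin 2 → Pl → ℝ) (c w : Pl → ℝ) (x : Pl) : ℝ :=
  -(∑ i, ∑ j, D i (fun y => A i j y * D j w y) x) + c x * w x

/-- smooth, symmetric, uniformly elliptic coefficients giving a strictly positive Dirichlet operator on `Ω` -/
structure Admissible (Ω : Set Pl) (A : Fin 2 → Fin 2 → Pl → ℝ) (c : Pl → ℝ) : Prop where
  smooth_A : ∀ i j, ContDiff ℝ ∞ (A i j)
  smooth_c : ContDiff ℝ ∞ c
  symm : ∀ i j, A i j = A j i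
  elliptic : ∃ θ > 0, ∀ x ∈ Ω, ∀ ξ : Fin 2 → ℝ, θ * ∑ i, ξ i ^ 2 ≤ ∑ i, ∑ j, A i j x * ξ i * ξ j
  positive : ∃ γ > 0, (∀ x ∈ Ω, γ ≤ c x) ∧ ∀ w : Pl → ℝ, ContDiff ℝ ∞ w → HasCompactSupport w → tsupport w ⊆ Ω →
    γ * ∫ x in Ω, w x ^ 2 ≤ ∫ x in Ω, op A c w x * w x

lemma D_smooth (i : Fin 2) {w : Pl → ℝ} (hw : ContDiff ℝ ∞ w) : ContDiff ℝ ∞ (D i w) :=
  (hw.fderiv_right (m := ∞) (by simp)).clm_apply contDiff_const

lemma form_pos {Ω : Set Pl} {A : Fin 2 → Fin 2 → Pl → ℝ} (hA : ∀ i j, ContDiff ℝ ∞ (A i j))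
    (he : ∀ x ∈ Ω, ∀ ξ : Fin 2 → ℝ, 0 ≤ ∑ i, ∑ j, A i j x * ξ i * ξ j) {w : Pl → ℝ} (hw : ContDiff ℝ ∞ w)
    (hc : HasCompactSupport w) (hs : tsupport w ⊆ Ω) :
    1 * ∫ x in Ω, w x ^ 2 ≤ ∫ x in Ω, op A (fun _ => 1) w x * w x := by
  have z : ∀ x, x ∉ Ω → w x = 0 := fun x hx => image_eq_zero_of_notMem_tsupport fun h => hx (hs h)
  rw [one_mul, setIntegral_eq_integral_of_forall_compl_eq_zero fun x hx => by rw [z x hx]; simp,
    setIntegral_eq_integral_of_forall_compl_eq_zero fun x hx => by rw [z x hx]; simp]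
  have hF : ∀ i j, ContDiff ℝ ∞ fun y => A i j y * D j w y := fun i j => (hA i j).mul (D_smooth j hw)
  have hcD : ∀ i, HasCompactSupport (D i w) := fun i => hc.fderiv_apply (𝕜 := ℝ) _
  have i1 : ∀ i j, Integrable fun x => D i (fun y => A i j y * D j w y) x * w x := fun i j =>
    ((D_smooth i (hF i j)).continuous.mul hw.continuous).integrable_of_hasCompactSupport hc.mul_left
  have i2 : ∀ i j, Integrable fun x => A i j x * D j w x * D i w x := fun i j =>
    ((hF i j).continuous.mul (D_smooth i hw).continuous).integrable_of_hasCompactSupport (hcD i).mul_left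
  have i3 : Integrable fun x => w x * w x :=
    (hw.continuous.mul hw.continuous).integrable_of_hasCompactSupport hc.mul_left
  have ibp : ∀ i j, ∫ x, A i j x * D j w x * D i w x = -∫ x, D i (fun y => A i j y * D j w y) x * w x := fun i j =>
    integral_mul_fderiv_eq_neg_fderiv_mul_of_integrable (f := fun y => A i j y * D j w y) (i1 i j) (i2 i j)
      (((hF i j).continuous.mul hw.continuous).integrable_of_hasCompactSupport hc.mul_left)
      (fun x _ => (hF i j).differentiable (by simp) x) (fun x _ => hw.differentiable (by simp) x)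
  have e : ∀ x, op A (fun _ => 1) w x * w x =
      w x * w x - ∑ i, ∑ j, D i (fun y => A i j y * D j w y) x * w x := by
    intro x
    simp only [op, Fin.sum_univ_two]
    ring
  simp only [e, sq]
  rw [integral_sub i3 (integrable_finsetSum _ fun i _ => integrable_finsetSum _ fun j _ => i1 i j),
    integral_finsetSum _ fun i _ => integrable_finsetSum _ fun j _ => i1 i j]
  simp only [integral_finsetSum _ fun j _ => i1 _ j]
  have p : 0 ≤ ∫ x, ∑ i, ∑ j, A i j x * D j w x * D i w x := by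
    refine integral_nonneg fun x => ?_
    by_cases hx : x ∈ Ω
    · have := he x hx fun i => D i w x
      simp only [Fin.sum_univ_two, Pi.zero_apply] at this ⊢
      linarith
    · have : ∀ i, D i w x = 0 := fun i => by
        have := fderiv_of_notMem_tsupport (𝕜 := ℝ) (f := w) (x := x) fun h => hx (hs h)
        simp [D, this]
      simp [this]
  rw [integral_finsetSum _ fun i _ => integrable_finsetSum _ fun j _ => i2 i j] at p
  simp only [integral_finsetSum _ fun j _ => i2 _ j, ibp, Finset.sum_neg_distrib] at p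
  linarith

/-- polynomial expressions in two variables -/
inductive Ex
  | c (a : ℤ)
  | v (i : Fin 2)
  | add (p q : Ex)
  | mul (p q : Ex)

def Ex.ev : Ex → Pl → ℝ
  | .c a, _ => a
  | .v i, x => x i
  | .add p q, x => p.ev x + q.ev x
  | .mul p q, x => p.ev x * q.ev x

def Ex.d (i : Fin 2) : Ex → Ex
  | .c _ => .c 0
  | .v j => .c (if j = i then 1 else 0)
  | .add p q => .add (p.d i) (q.d i)
  | .mul p q => .add (.mul (p.d i) q) (.mul p (q.d i))

lemma Ex.smooth (p : Ex) : ContDiff ℝ ∞ p.ev := by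
  induction p with
  | c a => exact contDiff_const
  | v i => exact (EuclideanSpace.proj i : Pl →L[ℝ] ℝ).contDiff
  | add p q hp hq => exact hp.add hq
  | mul p q hp hq => exact hp.mul hq

lemma Ex.D_ev (i : Fin 2) (p : Ex) : D i p.ev = (p.d i).ev := by
  funext x
  induction p with
  | c a => simp [D, Ex.d, Ex.ev]
  | v j =>
    have : fderiv ℝ (Ex.v j).ev x = (EuclideanSpace.proj j : Pl →L[ℝ] ℝ) :=
      (EuclideanSpace.proj j : Pl →L[ℝ] ℝ).fderiv
    rw [D, this]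
    simp [Ex.d, Ex.ev]
  | add p q hp hq =>
    have : fderiv ℝ (p.add q).ev x = fderiv ℝ p.ev x + fderiv ℝ q.ev x :=
      fderiv_add (p.smooth.differentiable (by simp) x) (q.smooth.differentiable (by simp) x)
    rw [D] at hp hq ⊢
    rw [this, add_apply, hp, hq]
    rfl
  | mul p q hp hq =>
    have : fderiv ℝ (p.mul q).ev x = p.ev x • fderiv ℝ q.ev x + q.ev x • fderiv ℝ p.ev x :=
      fderiv_mul (p.smooth.differentiable (by simp) x) (q.smooth.differentiable (by simp) x)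
    rw [D] at hp hq ⊢
    rw [this, add_apply, smul_apply, smul_apply, hp, hq]
    simp only [Ex.d, Ex.ev, smul_eq_mul]
    ring

lemma op_ev (A : Fin 2 → Fin 2 → Ex) (c : Pl → ℝ) (w : Ex) (x : Pl) :
    op (fun i j => (A i j).ev) c w.ev x = -(∑ i, ∑ j, (((A i j).mul (w.d j)).d i).ev x) + c x * w.ev x := by
  have : ∀ i j, D i (fun y => (A i j).ev y * (w.d j).ev y) = (((A i j).mul (w.d j)).d i).ev :=
    fun i j => Ex.D_ev i ((A i j).mul (w.d j))
  simp only [op, Ex.D_ev, this]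

def R : Ex := .add (.mul (.v 0) (.v 0)) (.mul (.v 1) (.v 1))

def H : List ℤ → Ex
  | [] => .c 0
  | a :: l => .add (.c a) (.mul R (H l))

lemma H_ev (l : List ℤ) (x : Pl) : (H l).ev x = hr l (x 0 * x 0 + x 1 * x 1) := by
  induction l with
  | nil => simp [H, hr, Ex.ev]
  | cons a l ih => simp only [H, hr, Ex.ev, R, ih]

/-- the matrix `α I + s (x ⊗ x⊥ + x⊥ ⊗ x) + β x⊥ ⊗ x⊥` -/
def M (α s β : List ℤ) (i j : Fin 2) : Ex :=
  if i = j then
    (if i = 0 then .add (H α) (.add (.mul (.c (-2)) (.mul (H s) (.mul (.v 0) (.v 1)))) (.mul (H β) (.mul (.v 1) (.v 1))))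
    else .add (H α) (.add (.mul (.c 2) (.mul (H s) (.mul (.v 0) (.v 1)))) (.mul (H β) (.mul (.v 0) (.v 0)))))
  else .add (.mul (H s) (.add (.mul (.v 0) (.v 0)) (.mul (.c (-1)) (.mul (.v 1) (.v 1)))))
    (.mul (.c (-1)) (.mul (H β) (.mul (.v 0) (.v 1))))

lemma rho_le {x : Pl} (hx : x ∈ closedBall (0 : Pl) 1) : x 0 * x 0 + x 1 * x 1 ≤ 1 := by
  have := mem_closedBall_zero_iff.1 hx
  have e := EuclideanSpace.real_norm_sq_eq x
  rw [Fin.sum_univ_two] at e
  nlinarith [norm_nonneg x]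

lemma rho_eq {x : Pl} (hx : x ∈ sphere (0 : Pl) 1) : x 0 * x 0 + x 1 * x 1 = 1 := by
  have := mem_sphere_zero_iff_norm.1 hx
  have e := EuclideanSpace.real_norm_sq_eq x
  rw [Fin.sum_univ_two, this] at e
  linarith

lemma quad {a s b X Y p q : ℝ} (ha : 0 < a)
    (hd : 0 ≤ a * (a + (X * X + Y * Y) * b) - ((X * X + Y * Y) * s) ^ 2) :
    0 ≤ a * (p ^ 2 + q ^ 2) + 2 * s * (X * p + Y * q) * (X * q - Y * p) + b * (X * q - Y * p) ^ 2 := by
  rcases (add_nonneg (mul_self_nonneg X) (mul_self_nonneg Y)).eq_or_lt with h | h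
  · have hX : X = 0 := by nlinarith
    have hY : Y = 0 := by nlinarith
    subst hX hY
    have : 0 ≤ a * (p ^ 2 + q ^ 2) := by positivity
    linarith
  · refine nonneg_of_mul_nonneg_right (a := a * (X * X + Y * Y)) ?_ (mul_pos ha h)
    have := add_nonneg (sq_nonneg (a * (X * p + Y * q) + (X * X + Y * Y) * s * (X * q - Y * p)))
      (mul_nonneg hd (sq_nonneg (X * q - Y * p)))
    refine this.trans (le_of_eq ?_)
    ring

lemma adm {α s β : List ℤ} (h1 : ∀ r : ℝ, 0 ≤ r → r ≤ 1 → 0 ≤ hr α r - 2)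
    (h2 : ∀ r : ℝ, 0 ≤ r → r ≤ 1 → 0 ≤ (hr α r - 1) * (hr α r - 1 + r * hr β r) - (r * hr s r) ^ 2) :
    Admissible (ball 0 1) (fun i j => (M α s β i j).ev) fun _ => 1 := by
  have he : ∀ x ∈ ball (0 : Pl) 1, ∀ ξ : Fin 2 → ℝ,
      1 * ∑ i, ξ i ^ 2 ≤ ∑ i, ∑ j, (M α s β i j).ev x * ξ i * ξ j := by
    intro x hx ξ
    have r1 := rho_le (ball_subset_closedBall hx)
    have r0 : 0 ≤ x 0 * x 0 + x 1 * x 1 := add_nonneg (mul_self_nonneg _) (mul_self_nonneg _)
    have := quad (p := ξ 0) (q := ξ 1) (by linarith [h1 _ r0 r1]) (h2 _ r0 r1)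
    simp only [Fin.sum_univ_two, M, Ex.ev, H_ev, if_true, zero_ne_one, one_ne_zero, if_false]
    push_cast
    linarith
  refine ⟨fun i j => Ex.smooth _, contDiff_const, fun i j => ?_, ⟨1, one_pos, he⟩, 1, one_pos, fun _ _ => le_rfl,
    fun w hw hc hs => form_pos (fun i j => Ex.smooth _) (fun x hx ξ => le_trans (by positivity) (he x hx ξ)) hw hc hs⟩
  by_cases e : i = j
  · rw [e]
  · simp only [M, e, Ne.symm e, if_false]

def eu : Ex := .mul (H [1, -1]) (.add (.mul (.c 2) (.v 0)) (.mul (H [7, -10]) (.v 1)))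
def ev : Ex := .mul (H [1, -1]) (.add (.mul (H [-4, 20]) (.v 0)) (.mul (.c (-5)) (.v 1)))

lemma eq1 (x : Pl) : op (fun i j => (M al1 s1 be1 i j).ev) (fun _ => 1) eu.ev x + (H a1).ev x * ev.ev x = 0 := by
  rw [op_ev]
  simp only [Fin.sum_univ_two, M, if_true, zero_ne_one, one_ne_zero, if_false, eu, ev, al1, s1, be1, a1, H, R, Ex.d,
    Ex.ev]
  push_cast
  ring

lemma eq2 (x : Pl) : -((H a2).ev x * eu.ev x) + op (fun i j => (M al2 s2 be2 i j).ev) (fun _ => 1) ev.ev x = 0 := by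
  rw [op_ev]
  simp only [Fin.sum_univ_two, M, if_true, zero_ne_one, one_ne_zero, if_false, eu, ev, al2, s2, be2, a2, H, R, Ex.d,
    Ex.ev]
  push_cast
  ring

end

theorem result : ∃ (A B : Fin 2 → Fin 2 → Pl → ℝ) (c d a b u v : Pl → ℝ),
    Admissible (ball 0 1) A c ∧ Admissible (ball 0 1) B d ∧
    ContDiff ℝ ∞ a ∧ ContDiff ℝ ∞ b ∧ (∀ x ∈ closedBall (0 : Pl) 1, 0 < a x ∧ 0 < b x) ∧
    ContDiff ℝ ∞ u ∧ ContDiff ℝ ∞ v ∧
    (∀ x ∈ ball (0 : Pl) 1, op A c u x + a x * v x = 0 ∧ -(b x * u x) + op B d v x = 0) ∧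
    (∀ x ∈ sphere (0 : Pl) 1, u x = 0 ∧ v x = 0) ∧ ∃ x ∈ ball (0 : Pl) 1, u x ≠ 0 := by
  refine ⟨_, _, _, _, (H a1).ev, (H a2).ev, eu.ev, ev.ev, adm (fun _ => pos_al1) fun _ => det_al1,
    adm (fun _ => pos_al2) fun _ => det_al2, Ex.smooth _, Ex.smooth _, fun x hx => ?_, Ex.smooth _, Ex.smooth _,
    fun x _ => ⟨eq1 x, eq2 x⟩, fun x hx => ?_, EuclideanSpace.single 0 (1 / 2), ?_, ?_⟩
  · have r1 := rho_le hx
    have r0 : 0 ≤ x 0 * x 0 + x 1 * x 1 := add_nonneg (mul_self_nonneg _) (mul_self_nonneg _)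
    rw [H_ev, H_ev]
    exact ⟨by linarith [pos_a1 r0 r1], by linarith [pos_a2 r0 r1]⟩
  · simp [eu, ev, Ex.ev, H_ev, rho_eq hx, hr]
  · simp
    norm_num
  · simp [eu, Ex.ev, H_ev, hr]
    norm_num

end Pool.Agent.Results.MP_f60174_an.Counter
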